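import Pool.Agent.Helper67.NX2.Defs

/-!
# Project NX2, Part B: definitions for the primes

`Z = 2 ^ z`, `F = log Z * 1_A` with `A` a set of primes `< Z`. Dyadic blocks of length `2 ^ b`,
cell averages over a residue class in a block, the dense model `gm`, the forms over the integers
and over residues.
-/

set_option autoImplicit false

open Finset
open scoped BigOperators ComplexConjugate

namespace Pool.Agent.Helper67.NX2

open Pool.Agent.Helper57.NX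

noncomputable section

/-- dyadic block `j` of length `2 ^ b` -/
def bl (b j : ℕ) : Finset ℕ := Ico (2 ^ b * j) (2 ^ b * (j + 1))

/-- shifts: `0` at the position `none`, `n ^ d_i` at the position `some i` -/
def sh {s : ℕ} (d : Fin s → ℕ) {R : Type*} [Semiring R] (n : R) : Option (Fin s) → R
  | none => 0
  | some i => n ^ d i

/-- the form over the integers:
`𝔼_{k ∈ [u,u+T)} (1/Z) Σ_{x<Z} G x * f_none x * ∏_i f_i (x + (K k)^(d_i))` -/
def nform {s : ℕ} (d : Fin s → ℕ) (K u T Z : ℕ) (G : ℕ → ℝ) (f : Option (Fin s) → ℕ → ℝ) : ℝ :=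
  𝔼 k ∈ Ico u (u + T), (∑ x ∈ range Z, G x * ∏ o, f o (x + sh d (K * k) o)) / Z

/-- the form over residues -/
def lfm {s : ℕ} (d : Fin s → ℕ) (K M : ℕ) [NeZero M] (H : Option (Fin s) → ZMod M → ℝ) : ℝ :=
  𝔼 ρ : ZMod M, 𝔼 κ : ZMod M, ∏ o, H o (ρ + sh d ((K : ZMod M) * κ) o)

/-- average of `F` over the residue class `ρ` modulo `M` in the block `j` of length `2 ^ b`,
normalised by `M / 2 ^ b` -/
def cell (F : ℕ → ℝ) (M b j : ℕ) (ρ : ZMod M) : ℝ :=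
  (M : ℝ) / 2 ^ b * ∑ y ∈ bl b j, if (y : ZMod M) = ρ then F y else 0

/-- conditional expectation of `F`: blocks of length `2 ^ b`, residues modulo `M` -/
def Fm (F : ℕ → ℝ) (M b x : ℕ) : ℝ := cell F M b (x / 2 ^ b) (x : ZMod M)

/-- average over the fibre `ρ` of `ZMod M → ZMod M'` (`M' ∣ M`) -/
def fav {M : ℕ} [NeZero M] (M' : ℕ) (H : ZMod M → ℝ) (ρ : ZMod M') : ℝ :=
  𝔼 x ∈ univ.filter (fun x : ZMod M => ((x.val : ℕ) : ZMod M') = ρ), H x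

/-- `Δ_S F` on the block `j`: residue `κ` modulo `K`, residues `ω p` modulo `p ^ r1`, `p ∈ S` -/
def DS (F : ℕ → ℝ) (K r1 b j : ℕ) (S : Finset ℕ) (κ : ℕ) (ω : ℕ → ℕ) : ℝ :=
  (∑ y ∈ bl b j, F y * (if y ≡ κ [MOD K] then (K : ℝ) else 0) *
    ∏ p ∈ S, ((if y ≡ ω p [MOD p ^ r1] then (p : ℝ) ^ r1 else 0) - 1)) / 2 ^ b

/-- the dense model: all `Δ_S F` with `#S ≤ r0` -/
def gm (F : ℕ → ℝ) (K r0 r1 b : ℕ) (PP : Finset ℕ) (x : ℕ) : ℝ :=
  ∑ S ∈ PP.powerset.filter (fun S => S.card ≤ r0), DS F K r1 b (x / 2 ^ b) S x (fun _ => x)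

/-- `h` depends only on the coordinates in `S` -/
def DepOn {ι : Type} {X : ι → Type} (S : Finset ι) (h : (∀ i, X i) → ℝ) : Prop :=
  ∀ ω ω' : ∀ i, X i, (∀ i ∈ S, ω i = ω' i) → h ω = h ω'

/-- `ω` on `B`, `ω'` outside `B` -/
def mixo {ι : Type} [DecidableEq ι] {X : ι → Type} (B : Finset ι) (ω ω' : ∀ i, X i) : ∀ i, X i :=
  fun i => if i ∈ B then ω i else ω' i

/-- the set of primes: all elements are primes `p` with `p < 2 ^ z ≤ p ^ 2` -/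
def PrA (z : ℕ) (A : Finset ℕ) : Prop := ∀ p ∈ A, p.Prime ∧ p < 2 ^ z ∧ 2 ^ z ≤ p ^ 2

/-- the weighted indicator function `log (2 ^ z) * 1_A` -/
def FA (z : ℕ) (A : Finset ℕ) (x : ℕ) : ℝ := if x ∈ A then Real.log ((2 : ℝ) ^ z) else 0

/-- block lengths -/
def BlkLen {s : ℕ} (d : Fin s → ℕ) (γ ε D : ℝ) (b : Option (Fin s) → ℕ) : Prop :=
  (D ^ (γ - 2 * ε) / 4 ≤ (2 : ℝ) ^ b none ∧ (2 : ℝ) ^ b none ≤ D ^ (γ - 2 * ε)) ∧
  ∀ i, D ^ ((d i : ℝ) - 2 * ε) / 4 ≤ (2 : ℝ) ^ b (some i) ∧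
    (2 : ℝ) ^ b (some i) ≤ D ^ ((d i : ℝ) - 2 * ε)

end

end Pool.Agent.Helper67.NX2
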