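import Pool.Agent.Helper57.NX.Defs3

/-!
# Project NX2: mixed systems (natural and non-natural exponents), definitions
-/

set_option autoImplicit false

open Finset
open scoped BigOperators ComplexConjugate

namespace Pool.Agent.Helper67.NX2

open Pool.Agent.Helper57.NX

noncomputable section

/-- distance to the nearest integer -/
def dint (x : ℝ) : ℝ := |x - round x|

/-- natural exponent -/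
def IsN (γ : ℝ) : Prop := ∃ n : ℕ, γ = n

/-- forward average along a progression of difference `st` -/
def Aq {N : ℕ} (st L : ℕ) (f : ZMod N → ℂ) (x : ZMod N) : ℂ :=
  𝔼 a ∈ range L, f (x + ((st * a : ℕ) : ZMod N))

/-- backward average along a progression of difference `st` -/
def Aqb {N : ℕ} (st L : ℕ) (f : ZMod N → ℂ) (x : ZMod N) : ℂ :=
  𝔼 a ∈ range L, f (x - ((st * a : ℕ) : ZMod N))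

/-- the step at a position with exponent `γ`: `Q q` for natural exponents, `1` otherwise -/
def stp (Q q : ℕ) (γ : ℝ) : ℕ := by classical exact if IsN γ then Q * q else 1

/-- exponents at least `2`, with gaps at least `2` -/
structure Ex {m : ℕ} (c : Fin m → ℝ) : Prop where
  two : ∀ i, 2 ≤ c i
  gap : ∀ i j, i < j → c i + 2 ≤ c j

/-- Good systems with exact polynomial sequences `Q (lam k + r)^d` at the natural exponents; the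
modulus `N` is `Q` times a prime. -/
structure IG {m : ℕ} (S : Sys m) (c : Fin m → ℝ) (N : ℕ) (x : ℝ) (lam : ℕ) : Prop where
  good : Good S c N x
  Q3 : (S.Q : ℝ) ≤ S.D ^ (5 / 2 + x)
  lam1 : 1 ≤ lam
  rho : ∃ r : ℕ, S.ρ * lam = r
  Pint : ∀ (i : Fin m) (d : ℕ), c i = d → S.P i = S.Q * (lam * S.D) ^ d
  prime : ∃ p : ℕ, p.Prime ∧ N = S.Q * p

/-- `U` for mixed systems -/
def UPm (m : ℕ) (c : Fin m → ℝ) (ε : ℝ) : Prop :=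
  ∃ x0 : ℝ, 0 < x0 ∧ ∃ C : ℕ, ∃ σ : ℝ, 0 < σ ∧ ∃ D0 : ℝ,
  ∀ (S : Sys m) (N : ℕ) [NeZero N] (lam : ℕ), D0 ≤ S.D → IG S c N x0 lam →
  ∀ δ : ℝ, S.D ^ (-σ) ≤ δ → δ ≤ 1 / 2 → (lam : ℝ) ≤ δ⁻¹ →
  ∀ (f0 : ZMod N → ℂ) (f : Fin m → ZMod N → ℂ),
  Adm δ⁻¹ S.Q f0 → (∀ i, Adm δ⁻¹ S.Q (f i)) →
  δ ≤ ‖form S c 1 f0 f‖ →
  ∃ q : ℕ, 1 ≤ q ∧ (q : ℝ) ≤ δ⁻¹ ^ C ∧ ∀ i, ∀ L : ℕ, 1 ≤ L →
    (L : ℝ) * (stp S.Q q (c i) : ℝ) ≤ S.P i * S.D ^ (-ε) →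
    δ ^ C ≤ nrm (Aq (stp S.Q q (c i)) L (f i))

/-- `D` for mixed systems -/
def DPm (m : ℕ) (c : Fin m → ℝ) (ε : ℝ) : Prop :=
  ∃ x0 : ℝ, 0 < x0 ∧ ∃ C : ℕ, ∃ σ : ℝ, 0 < σ ∧ ∃ D0 : ℝ,
  ∀ (S : Sys m) (N : ℕ) [NeZero N] (lam : ℕ), D0 ≤ S.D → IG S c N x0 lam →
  ∀ δ : ℝ, S.D ^ (-σ) ≤ δ → δ ≤ 1 / 2 → (lam : ℝ) ≤ δ⁻¹ →
  ∀ (h : ℕ → ℂ) (f0 : ZMod N → ℂ) (f : Fin m → ZMod N → ℂ),
  (∀ k, ‖h k‖ ≤ 1) → Adm δ⁻¹ S.Q f0 → (∀ i, Adm δ⁻¹ S.Q (f i)) →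
  δ ≤ ‖form S c h f0 f‖ →
  ∃ q : ℕ, 1 ≤ q ∧ (q : ℝ) ≤ δ⁻¹ ^ C ∧ ∃ θ : Fin m → ℝ, (∀ i, |θ i| ≤ δ⁻¹ ^ C / S.Q) ∧
    ∀ K : ℕ, 1 ≤ K → (K : ℝ) ≤ S.D ^ (1 - ε) →
      δ ^ C ≤ 𝔼 k ∈ S.I, ‖𝔼 j ∈ range K,
        h (k + q * j) * e (∑ i, θ i * S.P i * (S.t (k + q * j)) ^ (c i))‖

/-- top function smooth at scale `Q D^s`: interval conclusion for the top function -/
def TopPm (m : ℕ) (c : Fin (m + 1) → ℝ) (s ε : ℝ) : Prop :=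
  ∃ x0 : ℝ, 0 < x0 ∧ ∃ C : ℕ, ∃ σ : ℝ, 0 < σ ∧ ∃ D0 : ℝ,
  ∀ (S : Sys (m + 1)) (N : ℕ) [NeZero N] (lam : ℕ), D0 ≤ S.D → IG S c N x0 lam →
  ∀ δ : ℝ, S.D ^ (-σ) ≤ δ → δ ≤ 1 / 2 → (lam : ℝ) ≤ δ⁻¹ →
  ∀ X : ℝ, (S.Q : ℝ) ≤ X → S.Q * S.D ^ (s - σ) ≤ X →
  ∀ (f0 : ZMod N → ℂ) (f : Fin (m + 1) → ZMod N → ℂ),
  Adm δ⁻¹ S.Q f0 → (∀ i, Adm δ⁻¹ S.Q (f i)) → Adm δ⁻¹ X (f (Fin.last m)) →
  δ ≤ ‖form S c 1 f0 f‖ →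
  ∀ L : ℕ, 1 ≤ L → (L : ℝ) ≤ S.P (Fin.last m) * S.D ^ (-ε) → δ ^ C ≤ nrm (A L (f (Fin.last m)))

/-- top function smooth at scale `Q D^s`: progression conclusion for the functions with index
in `J` -/
def UsJ (m : ℕ) (c : Fin (m + 1) → ℝ) (s ε : ℝ) (J : Finset (Fin (m + 1))) : Prop :=
  ∃ x0 : ℝ, 0 < x0 ∧ ∃ C : ℕ, ∃ σ : ℝ, 0 < σ ∧ ∃ D0 : ℝ,
  ∀ (S : Sys (m + 1)) (N : ℕ) [NeZero N] (lam : ℕ), D0 ≤ S.D → IG S c N x0 lam →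
  ∀ δ : ℝ, S.D ^ (-σ) ≤ δ → δ ≤ 1 / 2 → (lam : ℝ) ≤ δ⁻¹ →
  ∀ X : ℝ, (S.Q : ℝ) ≤ X → S.Q * S.D ^ (s - σ) ≤ X →
  ∀ (f0 : ZMod N → ℂ) (f : Fin (m + 1) → ZMod N → ℂ),
  Adm δ⁻¹ S.Q f0 → (∀ i, Adm δ⁻¹ S.Q (f i)) → Adm δ⁻¹ X (f (Fin.last m)) →
  δ ≤ ‖form S c 1 f0 f‖ →
  ∃ q : ℕ, 1 ≤ q ∧ (q : ℝ) ≤ δ⁻¹ ^ C ∧ ∀ i ∈ J, ∀ L : ℕ, 1 ≤ L →
    (L : ℝ) * (stp S.Q q (c i) : ℝ) ≤ S.P i * S.D ^ (-ε) →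
    δ ^ C ≤ nrm (Aq (stp S.Q q (c i)) L (f i))

/-- conclusion of `D` with smooth top function -/
def DsPm (m : ℕ) (c : Fin (m + 1) → ℝ) (s ε : ℝ) : Prop :=
  ∃ x0 : ℝ, 0 < x0 ∧ ∃ C : ℕ, ∃ σ : ℝ, 0 < σ ∧ ∃ D0 : ℝ,
  ∀ (S : Sys (m + 1)) (N : ℕ) [NeZero N] (lam : ℕ), D0 ≤ S.D → IG S c N x0 lam →
  ∀ δ : ℝ, S.D ^ (-σ) ≤ δ → δ ≤ 1 / 2 → (lam : ℝ) ≤ δ⁻¹ →
  ∀ X : ℝ, (S.Q : ℝ) ≤ X → S.Q * S.D ^ (s - σ) ≤ X → X ≤ S.Q * S.D ^ s →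
  ∀ (h : ℕ → ℂ) (f0 : ZMod N → ℂ) (f : Fin (m + 1) → ZMod N → ℂ),
  (∀ k, ‖h k‖ ≤ 1) → Adm δ⁻¹ S.Q f0 → (∀ i, Adm δ⁻¹ S.Q (f i)) →
  Adm δ⁻¹ X (f (Fin.last m)) →
  δ ≤ ‖form S c h f0 f‖ →
  ∃ q : ℕ, 1 ≤ q ∧ (q : ℝ) ≤ δ⁻¹ ^ C ∧
    ∃ θ : Fin (m + 1) → ℝ, (∀ i, |θ i| ≤ δ⁻¹ ^ C / S.Q) ∧ |θ (Fin.last m)| ≤ δ⁻¹ ^ C / X ∧
    ∀ K : ℕ, 1 ≤ K → (K : ℝ) ≤ S.D ^ (1 - ε) →
      δ ^ C ≤ 𝔼 k ∈ S.I, ‖𝔼 j ∈ range K,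
        h (k + q * j) * e (∑ i, θ i * S.P i * (S.t (k + q * j)) ^ (c i))‖

/-- block phases with large frequencies (but `≤ δ⁻¹/(Q D^s0)`) have a small form -/
def LPPm (m : ℕ) (c : Fin (m + 1) → ℝ) (s s0 : ℝ) : Prop :=
  ∃ x0 : ℝ, 0 < x0 ∧ ∃ C : ℕ, ∃ σ : ℝ, 0 < σ ∧ ∃ D0 : ℝ,
  ∀ (S : Sys (m + 1)) (N : ℕ) [NeZero N] (lam : ℕ), D0 ≤ S.D → IG S c N x0 lam →
  ∀ δ : ℝ, S.D ^ (-σ) ≤ δ → δ ≤ 1 / 2 → (lam : ℝ) ≤ δ⁻¹ →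
  ∀ X : ℕ, S.Q ≤ X → S.Q * S.D ^ (s - σ) ≤ (X : ℝ) → (X : ℝ) ≤ S.Q * S.D ^ s →
  ∀ (f0 : ZMod N → ℂ) (f : Fin m → ZMod N → ℂ),
  Adm δ⁻¹ S.Q f0 → (∀ i, Adm δ⁻¹ S.Q (f i)) →
  ∀ (r : ZMod N) (cc : ℕ → ℂ) (φ : ℕ → ℝ), (∀ j, ‖cc j‖ ≤ 1) →
  (∀ j, |φ j| ≤ δ⁻¹ / (S.Q * S.D ^ s0)) →
  (∀ j, cc j ≠ 0 → δ⁻¹ ^ C / X ≤ |φ j|) →
  ‖form S c 1 f0 (Fin.snoc (α := fun _ => ZMod N → ℂ) f (bphase X r cc φ))‖ < δ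

/-- local correlation along progressions of difference `q` -/
def locCorrq {m N : ℕ} [NeZero N] (S : Sys (m + 1)) (c : Fin (m + 1) → ℝ) (q : ℕ)
    (f : ZMod N → ℂ) (θ : ZMod N → Fin m → ℝ) (K : ℕ) (x : ZMod N) : ℝ :=
  𝔼 k ∈ S.I, ‖𝔼 j ∈ range K, f (x + (S.a c (Fin.last m) (k + q * j) : ZMod N)) *
    e (∑ i : Fin m, θ x i * S.P i.castSucc * (S.t (k + q * j)) ^ (c i.castSucc))‖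

/-- The system seen along `k = q j + r0`, on the interval `[u', u'+T')`; new scale
`D' = (u'+T')/2`. -/
def dil {m : ℕ} (S : Sys m) (c : Fin m → ℝ) (q r0 u' T' : ℕ) : Sys m where
  D := ((u' : ℝ) + T') / 2
  ρ := (r0 + S.ρ) / q
  Q := S.Q
  u := u'
  T := T'
  P := fun i => S.P i * (q * (((u' : ℝ) + T') / 2) / S.D) ^ (c i)

/-- block-constant functions on `ZMod (Q p)` -/
def blk {N p : ℕ} (Q : ℕ) (G : ZMod p → ℂ) (x : ZMod N) : ℂ := G ((x.val / Q : ℕ) : ZMod p)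

/-- `z ↦ f (Q (q z) + e)`, the fibre of `f` over the residue `e`, dilated by `q` -/
def fib {N p : ℕ} (Q q : ℕ) (f : ZMod N → ℂ) (e : ℕ) (z : ZMod p) : ℂ :=
  f ((Q * (q * z.val) + e : ℕ) : ZMod N)

/-- block phases along the progressions of difference `Q q` -/
def apb {N p : ℕ} (Q q X : ℕ) (r : ZMod p) (cc : ℕ → ℕ → ℂ) (φ : ℕ → ℕ → ℝ) (x : ZMod N) : ℂ :=
  bphase X r (cc (x.val % Q)) (φ (x.val % Q)) (((x.val / Q : ℕ) : ZMod p) * (q : ZMod p)⁻¹)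

/-- cubes in direction `st` -/
def cubeq {N k : ℕ} (st : ℕ) (f : ZMod N → ℂ) (a b : Fin k → ℕ) (x : ZMod N) : ℂ :=
  ∏ ω : Fin k → Bool, cjj ω (f (x + ((st * tot (sel ω a b) : ℕ) : ZMod N)))

/-- box norm in direction `st` -/
def Boxq {N : ℕ} [NeZero N] (st k X : ℕ) (f : ZMod N → ℂ) : ℝ :=
  (𝔼 a ∈ boxset k X, 𝔼 b ∈ boxset k X, 𝔼 x : ZMod N, cubeq st f a b x).re

/-- Abstract hypothesis of the degree lowering for families: the cubes of `F n e` have a small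
form against block phases without major frequencies. -/
def LPhM {p : ℕ} [NeZero p] {κ ι : Type} [Fintype κ] (Ω : Finset ι) (F : ι → κ → ZMod p → ℂ)
    (k X' X : ℕ) (R V η : ℝ) : Prop :=
  ∀ a ∈ boxset k X', ∀ b ∈ boxset k X', ∀ (r : ZMod p) (cc : κ → ℕ → ℂ) (φ : κ → ℕ → ℝ),
    (∀ e j, ‖cc e j‖ ≤ 1) →
    (∀ e j, cc e j ≠ 0 → ∀ q : ℕ, 1 ≤ q → (q : ℝ) ≤ R → V < dint (q * φ e j)) →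
    ‖𝔼 n ∈ Ω, 𝔼 e : κ, 𝔼 x, cube (F n e) a b x * bphase X r (cc e) (φ e) x‖ < η

end

end Pool.Agent.Helper67.NX2
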