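import Pool.Agent.Helper67.NX2.PartB
import Pool.Agent.Helper53.NX2.FormReplace
import Pool.Agent.Helper57.NX3.PatFinal
import Pool.Agent.Helper68.NX3.FinalAll
import Pool.Agent.Helper57.NX.Final

/-! Project NX2: final assembly (Q2 of MP_cb2931_nt for all exponents). -/

set_option autoImplicit false

open Finset
open scoped BigOperators ComplexConjugate

namespace Pool.Agent.Helper67.NX2.W

open Pool.Agent.Helper57.NX Pool.Agent.Helper67.NX2

theorem formRep : Pool.Agent.Helper57.NX3.FormRep :=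
  fun m c hc => form_replace' m c (main_mixed es0 m c hc).1

theorem primesModel : Pool.Agent.Helper57.NX3.PrimesModel :=
  fun s d h1 h2 γ ε h3 h4 h5 h6 => primes_model es0 s d h1 h2 γ ε h3 h4 h5 h6

theorem patternE : Pool.Agent.Helper57.NX3.PatternE := by
  intro l c hc δ hδ N0
  by_cases hnat : ∃ i, IsN (c i)
  · obtain ⟨i, hi⟩ := hnat
    cases l with
    | zero => exact i.elim0
    | succ l =>
      exact Pool.Agent.Helper57.NX3.pattern_mixed es0 formRep primesModel c hc ⟨i, hi⟩ δ hδ N0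
  · have hcm : StrictMono c := fun i j hij => by linarith [hc.gap i j hij]
    have hc0 : ∀ i, 0 < c i := fun i => by linarith [hc.two i]
    have hcn : ∀ i (n : ℕ), c i ≠ n := fun i n h => hnat ⟨i, n, h⟩
    exact nx_pattern es0 l c hcm hc0 hcn (main_induction l c hcm hc0 hcn).1 δ hδ N0

/-- Q2 for all exponents, in all dense sets of primes -/
theorem all_exponents (A : Set ℕ) (hA : ∀ p ∈ A, p.Prime)
    (hd : ∃ δ : ℝ, 0 < δ ∧ ∃ᶠ x : ℕ in Filter.atTop,
      δ * (Nat.primeCounting x : ℝ) ≤ ({p ∈ A | p ≤ x}.ncard : ℝ))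
    (l : ℕ) (c : Fin l → ℝ) (hc : ∀ i, 0 < c i) (N : ℕ) :
    ∃ m ∈ A, ∃ n : ℕ, N ≤ n ∧ ∀ i, m + ⌊(n : ℝ) ^ c i⌋₊ ∈ A :=
  Pool.Agent.Helper57.NX3.final_all patternE A hA hd l c hc N

end Pool.Agent.Helper67.NX2.W
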