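import Pool.Agent.Helper73.NX2.LpLocalOf
import Pool.Agent.Helper28.NX2.Lpp
import Pool.Agent.Helper46.NX2.LpAlign
import Pool.Agent.Helper5.NX2.Ratl
import Pool.Agent.Helper84.NX2.BaseOf
import Pool.Agent.Helper41.NX2.BaseCells
import Pool.Agent.Helper41.NX2.TopStep
import Pool.Agent.Helper59.NX2.BaseRatl
import Pool.Agent.Helper8.NX2.BaseFin
import Pool.Agent.Helper40.NX2.IGBasic
import Pool.Agent.Helper74.NX2.LpArithCore
import Pool.Agent.Helper92.NX2.Bc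
import Pool.Agent.Helper91.NX2.AlArith
import Pool.Agent.Helper30.NX2.LocArith
import Pool.Agent.Helper15.NX2.DaggerOf
import Pool.Agent.Helper15.NX2.TopArithOf
import Pool.Agent.Helper9.NX2.DlTotal
import Pool.Agent.Helper94.NX2.MainMixedOf
import Pool.Agent.Helper94.NX2.LowArith
import Pool.Agent.Helper82.NX2.Gnc
import Pool.Agent.Helper82.NX2.GncNat
import Pool.Agent.Helper50.NX2.UsOfTop
import Pool.Agent.Helper45.NX2.DsOfUs
import Pool.Agent.Helper21.NX2.ZeroArith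
import Pool.Agent.Helper21.NX2.ThmPOf

/-! Project NX2, Part A: assembly (wrappers in the namespace `W`). -/

set_option autoImplicit false

open Finset
open scoped BigOperators ComplexConjugate

namespace Pool.Agent.Helper67.NX2.W

open Pool.Agent.Helper57.NX Pool.Agent.Helper67.NX2

theorem lpp (hES : ES0) (m : ℕ) (c : Fin (m + 1) → ℝ) (hc : Ex c) (s s0 : ℝ) (hs0 : 0 ≤ s0)
    (hs0s : s0 ≤ s) (hs : s < c (Fin.last m)) (hnat : IsN (c (Fin.last m)) → 0 < s0)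
    (hT : ∀ ε : ℝ, 0 < ε → TopPm m c s ε)
    (hD : ∀ ε : ℝ, 0 < ε → DsPm m c s ε) : LPPm m c s s0 :=
  lpp_core' m c s s0 hs0 hs (fun e he => lp_align' m c s e (hs0.trans hs0s) he (hT e he))
    (lp_local_of (fun c hc hc0 a e he => ratl hES c hc hc0 a e he) m c hc s s0 hs0 hs0s hs hnat hD)

theorem base (hES : ES0) (m : ℕ) (c : Fin (m + 1) → ℝ) (hc : Ex c)
    (hD : ∀ ε : ℝ, 0 < ε → DPm m (fun i => c i.castSucc) ε) :
    ∃ sb : ℝ, c (Fin.last m) - 1 / 8 ≤ sb ∧ sb < c (Fin.last m) ∧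
      ∀ ε : ℝ, 0 < ε → TopPm m c sb ε :=
  base'_of m c hc (fun h hx hD => h.mono hx hD)
    (fun s h0 hs hs1 => base_cells' m c hc s h0 hs hs1 hD) (base_ratl hES m c hc)
    (fun e he => base_fin hES m c hc e he)

theorem dag (hES : ES0) (m : ℕ) (c : Fin (m + 1) → ℝ) (hc : Ex c) (d : ℕ)
    (hd : c (Fin.last m) = d) (s : ℝ) (hs0 : 0 < s) (hs : s < 1)
    (hT : ∀ ε : ℝ, 0 < ε → TopPm m c s ε) (hD : ∀ ε : ℝ, 0 < ε → DsPm m c s ε) :
    ∀ κ : ℝ, 0 < κ → ∃ x0 : ℝ, 0 < x0 ∧ ∃ C : ℕ, ∃ σ : ℝ, 0 < σ ∧ ∃ D0 : ℝ,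
    ∀ (S : Sys (m + 1)) (N : ℕ) [NeZero N] (lam : ℕ), D0 ≤ S.D → IG S c N x0 lam →
    ∀ δ : ℝ, S.D ^ (-σ) ≤ δ → δ ≤ 1 / 2 → (lam : ℝ) ≤ δ⁻¹ →
    ∀ (f0 : ZMod N → ℂ) (f : Fin (m + 1) → ZMod N → ℂ),
    Adm δ⁻¹ S.Q f0 → (∀ i, Adm δ⁻¹ S.Q (f i)) → δ ≤ ‖form S c 1 f0 f‖ →
    ∃ q : ℕ, 1 ≤ q ∧ (q : ℝ) ≤ δ⁻¹ ^ C ∧ ∀ L : ℕ, 1 ≤ L → (L : ℝ) ≤ S.D ^ (s - κ) →
      δ ^ C ≤ nrm (Aq (S.Q * q) L (dual S c 1 f0 f (Fin.last m))) :=
  dagger_of15 (fun r Γ n => dl_total' r Γ n) m c hc d hd s hs0 hs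
    (lp_arith_core m c hc d hd s hs.le (bc m)
      (fun ε hε => al_arith m c hc d hd s hs0
        (lt_of_lt_of_le hs (by
          have h := hc.two (Fin.last m)
          rw [hd] at h
          linarith)) hT ε hε)
      (loc_arith hES m c hc d hd s hs0 hs.le hD))

/-- main induction for mixed systems -/
theorem main_mixed (hES : ES0) (m : ℕ) (c : Fin m → ℝ) (hc : Ex c) :
    (∀ ε : ℝ, 0 < ε → UPm m c ε) ∧ (∀ ε : ℝ, 0 < ε → DPm m c ε) :=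
  main_mixed_of (fun m c hc hD => base hES m c hc hD)
    (fun m c h1 h2 h3 εb hεb => gnc' m c h1 h2 h3 εb hεb)
    (fun m c hc d hd εb hεb => gnc_nat m c hc d hd εb hεb)
    (fun m c hc s hs hU hT => us_of_top' m c hc s hs hU hT)
    (fun m c hc s hs0 hs hU => ds_of_us' m c hc s hs0 hs hU)
    (fun m c hc s s0 h1 h2 h3 h4 hT hD => lpp hES m c hc s s0 h1 h2 h3 h4 hT hD)
    (fun m c hc s s' s0 ε h1 h2 h3 h4 h5 hG hL hT =>
      top_step' m c hc s s' s0 ε h1 h2 h3 h4 h5 hG hL hT)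
    (fun m c hc d hd s hs0 hs hT hD hU =>
      low_arith m c hc d hd s hs0 hs hT (dag hES m c hc d hd s hs0 hs hT hD) hU)
    (fun m c hc d hd hJ => top_arith_of15 m c
      (fun a e he => ratl hES c hc.strictMono (fun i => by have := hc.two i; linarith) a e he)
      hc d hd hJ)
    m c hc

end Pool.Agent.Helper67.NX2.W
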