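import Pool.Agent.Helper67.NX2.PartA
import Pool.Agent.Helper46.NX2.ReplaceAp
import Pool.Agent.Helper46.NX2.PrimesModelOf
import Pool.Agent.Helper92.NX2.Stage12Of
import Pool.Agent.Helper14.NX2.LocalThm
import Pool.Agent.Helper8.NX2.PeelCore
import Pool.Agent.Helper90.NX2.LocalMainOf
import Pool.Agent.Helper83.NX2.CellLe
import Pool.Agent.Helper45.NX2.BtClass
import Pool.Agent.Helper63.NX2.VarBoundFinal
import Pool.Agent.Helper84.NX2.RoughSum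

/-! Project NX2, Part B: assembly (wrappers in the namespace `W`). -/

set_option autoImplicit false

open Finset
open scoped BigOperators ComplexConjugate

namespace Pool.Agent.Helper67.NX2.W

open Pool.Agent.Helper57.NX Pool.Agent.Helper67.NX2

theorem ex_nat (s : ℕ) (d : Fin (s + 1) → ℕ) (hd2 : ∀ i, 2 ≤ d i)
    (hgap : ∀ i j, i < j → d i + 2 ≤ d j) : Ex (fun i => (d i : ℝ)) where
  two := fun i => by exact_mod_cast hd2 i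
  gap := fun i j hij => by exact_mod_cast hgap i j hij

theorem usJ_of_upm (m : ℕ) (c : Fin (m + 1) → ℝ) (ε : ℝ) (h : UPm (m + 1) c ε) :
    UsJ m c 0 ε univ := by
  obtain ⟨x0, hx0, C, σ, hσ, D0, H⟩ := h
  refine ⟨x0, hx0, C, σ, hσ, D0, ?_⟩
  intro S N _ lam hD hI δ h1 h2 h3 X _ _ f0 f a1 a2 _ hf
  obtain ⟨q, q1, q2, q3⟩ := H S N lam hD hI δ h1 h2 h3 f0 f a1 a2 hf
  exact ⟨q, q1, q2, fun i _ => q3 i⟩

theorem thmP (hES : ES0) (s : ℕ) (d : Fin (s + 1) → ℕ) (hd2 : ∀ i, 2 ≤ d i)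
    (hgap : ∀ i j, i < j → d i + 2 ≤ d j) : Pool.Agent.Helper67.NX2.ThmPC s d :=
  thmP_of21 s d (main_mixed hES (s + 1) _ (ex_nat s d hd2 hgap)).1
    (zero_arith hES s _ (ex_nat s d hd2 hgap) (fun i => ⟨d i, rfl⟩)
      (fun ε hε => usJ_of_upm s _ ε ((main_mixed hES (s + 1) _ (ex_nat s d hd2 hgap)).1 ε hε)))

theorem cell_le : CellLeC := cell_le_of_bt bt_class

theorem replace_ap (hES : ES0) (s : ℕ) (d : Fin (s + 1) → ℕ) (hd2 : ∀ i, 2 ≤ d i)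
    (hgap : ∀ i j, i < j → d i + 2 ≤ d j) (γ ε : ℝ) (hγ : 1 ≤ γ) (hγd : γ ≤ d 0) (hε : 0 < ε)
    (hε' : ε ≤ 1 / 8) : ReplaceApC s d γ ε :=
  replace_ap_of s d (thmP hES s d hd2 hgap) hd2 γ ε hγ hγd hε hε'

theorem stage12 (hES : ES0) (s : ℕ) (d : Fin (s + 1) → ℕ) (hd2 : ∀ i, 2 ≤ d i)
    (hgap : ∀ i j, i < j → d i + 2 ≤ d j) (γ ε : ℝ) (hγ : 1 ≤ γ) (hγd : γ ≤ d 0) (hε : 0 < ε)
    (hε' : ε ≤ 1 / 8) : Stage12C s d γ ε :=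
  stage12_of s d hd2 γ ε hγ hγd hε hε' (replace_ap hES s d hd2 hgap γ ε hγ hγd hε hε')
    var_bound cell_le

theorem local_thm (hES : ES0) (s : ℕ) (d : Fin (s + 1) → ℕ) (hd2 : ∀ i, 2 ≤ d i)
    (hgap : ∀ i j, i < j → d i + 2 ≤ d j) : LM.LocalThmP s d :=
  local_thm_of s d hd2 (thmP hES s d hd2 hgap)

theorem peel (hES : ES0) (s : ℕ) (d : Fin (s + 1) → ℕ) (hd2 : ∀ i, 2 ≤ d i)
    (hgap : ∀ i j, i < j → d i + 2 ≤ d j) : LM.PeelP s d :=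
  peel_of8 s d (local_thm hES s d hd2 hgap)

theorem local_main (hES : ES0) (s : ℕ) (d : Fin (s + 1) → ℕ) (hd2 : ∀ i, 2 ≤ d i)
    (hgap : ∀ i j, i < j → d i + 2 ≤ d j) : LocalMainC s d :=
  fun V κ hV hκ => local_main_of s d (local_thm hES s d hd2 hgap) (peel hES s d hd2 hgap)
    totient_ratio V κ hV hκ

/-- The primes model. -/
theorem primes_model (hES : ES0) (s : ℕ) (d : Fin (s + 1) → ℕ) (hd2 : ∀ i, 2 ≤ d i)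
    (hgap : ∀ i j, i < j → d i + 2 ≤ d j) (γ ε : ℝ) (hγ : 1 ≤ γ) (hγd : γ ≤ d 0) (hε : 0 < ε)
    (hε' : ε ≤ 1 / 8) :
    ∃ x0 : ℝ, 0 < x0 ∧ ∀ τ V κ : ℝ, 0 < τ → 1 ≤ V → 0 < κ → ∃ w0 : ℕ, ∀ w : ℕ, w0 ≤ w →
    ∀ K : ℕ, 1 ≤ K → (∀ p : ℕ, p.Prime → p ∣ K → p ≤ w) →
    ∃ K' : ℕ, 1 ≤ K' ∧ K ∣ K' ∧ (∀ p : ℕ, p.Prime → (p ∣ K' ↔ p ≤ w)) ∧
    ∃ z0 : ℕ, ∀ z : ℕ, z0 ≤ z → ∀ A : Finset ℕ, PrA z A → ∀ (D : ℝ) (u T : ℕ),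
    (2 : ℝ) ^ (τ * z) ≤ D → (∀ i, ((K : ℝ) * (3 * D)) ^ (d i) ≤ (2 : ℝ) ^ z) →
    D ≤ u → (u : ℝ) + T ≤ 2 * D → D ^ (1 - x0) ≤ T →
    ∀ G : ℕ → ℝ, (∀ x, |G x| ≤ V) → (∀ x t : ℕ, |G (x + t) - G x| ≤ V * t / D ^ (γ - ε)) →
    ∀ b : Option (Fin (s + 1)) → ℕ, BlkLen d γ ε D b →
    |nform d K u T (2 ^ z) G (fun _ => FA z A) -
      nform d K u T (2 ^ z) G (fun o => Fm (FA z A) K' (b o))| ≤ κ :=
  primes_model_of s d hd2 hgap γ ε hγ hγd hε hε' (stage12 hES s d hd2 hgap γ ε hγ hγd hε hε')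
    (local_main hES s d hd2 hgap) cell_le

end Pool.Agent.Helper67.NX2.W
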